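import Mathlib
import Pool.Agent.Lib.MP_9cfc0a_nt.Mg.G023
import Pool.Agent.Lib.MP_9cfc0a_nt.Mg.G030
import Pool.Agent.Lib.MP_9cfc0a_nt.MY.C2
import Pool.Agent.Lib.MP_9cfc0a_nt.MY.C3
import Pool.Agent.Lib.MP_9cfc0a_nt.Mg.G031

set_option autoImplicit false

namespace Pool.Agent.MZ

open Complex Finset MY

/-- A shifted coefficient of a class outside `B`. -/
lemma Z0_Dn_off (q : ℕ) [NeZero q] (s : ℂ) (hs : s.re = 2) (S : ℝ) (hS1 : 1 ≤ S) (hS : ‖s‖ ≤ S)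
    (B : Finset (ZMod q)ˣ) (hB : 2 * (B.card : ℝ) ≤ q.totient) (X Y τ θ : ℝ) (hX : 1 ≤ X)
    (hXY : X ≤ Y) (hτ : 0 ≤ τ) (hθ : 1 / 2 ≤ θ) (hθ1 : θ ≤ 1)
    (h : ∀ k n : ℕ, 1 ≤ k → 1 ≤ n → 12 * Real.log (n * X) ≤ k → ∀ c ∉ B, ∀ c' ∉ B,
      ‖Dn q s k c n - Dn q s k c' n‖ ≤ bet S τ θ Y k n)
    (k n : ℕ) (hk : 1 ≤ k) (hn : 1 ≤ n) (hkX : 12 * Real.log (n * X) ≤ k) (c : (ZMod q)ˣ)
    (hc : c ∉ B) (m : ℝ) (hm : 0 ≤ m) (hmB : ∀ a ∈ B, ‖Dn q s k a n‖ ≤ m) :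
    ‖Dn q s k c n‖ ≤ 2 * bet S τ θ Y k n + 2 * B.card / q.totient * m := by
  refine off_B q (fun a => Dn q s k a n) (sum_Dn q s k n) B hB (bet S τ θ Y k n) m
    (bet_nonneg S τ θ Y (by linarith) hτ (by linarith) (by linarith) k n) hm ?_ hmB c hc
  intro c1 hc1 c2 hc2
  exact h k n hk hn hkX c1 hc1 c2 hc2

open Classical in
/-- C1. One step of the recursion at a class of `B`. -/
lemma Z0_step (κ : ℕ) : ∃ C : ℝ, 0 ≤ C ∧ ∀ (S : ℝ), 3 ≤ S → ∀ (q : ℕ) [NeZero q], 2 ≤ q →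
    ∀ (s : ℂ), s.re = 2 → ‖s‖ ≤ S → ∀ (B : Finset (ZMod q)ˣ), 2 * (B.card : ℝ) ≤ q.totient →
    ∀ (X Y τ θ : ℝ), (q : ℝ) ≤ X → X ≤ Y → 0 ≤ τ → 1 / 2 ≤ θ → θ ≤ 1 →
    (∀ k n : ℕ, 1 ≤ k → 1 ≤ n → 12 * Real.log (n * X) ≤ k → ∀ c ∉ B, ∀ c' ∉ B,
      ‖Dn q s k c n - Dn q s k c' n‖ ≤ bet S τ θ Y k n) →
    ∀ U : ℝ, (q : ℝ) ≤ U → ∀ N : ℕ, 2 * U ≤ N → ∀ k : ℕ, 1 ≤ k →
    12 * Real.log (q * N * X) ≤ k → ∀ a ∈ B,
    ‖Dk q s k a‖ ≤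
      (∑ n ∈ (Icc 2 (q * N)).filter (fun n => Nat.Coprime n q),
        (|cn (Ds q B a) U n| * ((if q < n ∧ a * (un q n)⁻¹ ∈ B then 1 else 0)
          + 2 * B.card / q.totient)) *
        ((∑ i ∈ range (k + 1), (Real.log n) ^ i / (i.factorial : ℝ)
          * mx B (fun b => ‖Dk q s (k - i) b‖)) / (n : ℝ) ^ 2))
      + (∑ n ∈ Icc 2 (q * N), |cn (Ds q B a) U n| * (2 * bet S τ θ Y k n))
      + C * (S + 2) ^ (κ + 1) * (Ds q B a).card * Err q κ U k := by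
  obtain ⟨C, hC, hrec⟩ := rec_ineq κ
  refine ⟨C, hC, ?_⟩
  intro S hS q _ hq s hs hsS B hB X Y τ θ hqX hXY hτ hθ hθ1 h U hU N hN k hk hkX a ha
  have hqr : (2 : ℝ) ≤ q := by exact_mod_cast hq
  have hX1 : 1 ≤ X := by linarith
  obtain ⟨hD1, hD2⟩ := Ds_mem q hq B a
  have h1 := hrec S hS q s hs hsS (Ds q B a) hD1 hD2 U (by linarith) N hN a k
  refine h1.trans ?_
  refine add_le_add ?_ le_rfl
  set F : ℕ → ℝ := fun n => ((∑ i ∈ range (k + 1), (Real.log n) ^ i / (i.factorial : ℝ)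
          * mx B (fun b => ‖Dk q s (k - i) b‖)) / (n : ℝ) ^ 2) with hF
  have hbet : ∀ n : ℕ, 0 ≤ bet S τ θ Y k n := fun n =>
    bet_nonneg S τ θ Y (by linarith) hτ (by linarith) (by linarith) k n
  have hF0 : ∀ n : ℕ, 1 ≤ n → 0 ≤ F n := by
    intro n hn
    have hlog : 0 ≤ Real.log n := Real.log_nonneg (by exact_mod_cast hn)
    refine div_nonneg (Finset.sum_nonneg fun i _ => ?_) (by positivity)
    exact mul_nonneg (by positivity) (mx_nonneg B _ fun b => norm_nonneg _)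
  have hφ : (0 : ℝ) ≤ 2 * B.card / q.totient := by positivity
  have h2 : (∑ n ∈ (Icc 2 (q * N)).filter (fun n => Nat.Coprime n q),
        |cn (Ds q B a) U n| * ‖Dn q s k (a * (un q n)⁻¹) n‖)
      ≤ ∑ n ∈ (Icc 2 (q * N)).filter (fun n => Nat.Coprime n q),
        ((|cn (Ds q B a) U n| * ((if q < n ∧ a * (un q n)⁻¹ ∈ B then 1 else 0)
          + 2 * B.card / q.totient)) * F n
        + |cn (Ds q B a) U n| * (2 * bet S τ θ Y k n)) := by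
    refine Finset.sum_le_sum fun n hn => ?_
    rw [Finset.mem_filter, Finset.mem_Icc] at hn
    obtain ⟨⟨hn2, hnN⟩, hcop⟩ := hn
    have hn1 : 1 ≤ n := by omega
    by_cases hB' : a * (un q n)⁻¹ ∈ B
    · by_cases hqn : q < n
      · rw [if_pos ⟨hqn, hB'⟩]
        have h3 := Dn_le_mx q s hs B k n hn1 _ hB'
        have h4 : |cn (Ds q B a) U n| * ‖Dn q s k (a * (un q n)⁻¹) n‖
            ≤ |cn (Ds q B a) U n| * F n := mul_le_mul_of_nonneg_left h3 (abs_nonneg _)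
        have h5 : 0 ≤ |cn (Ds q B a) U n| * (2 * bet S τ θ Y k n) :=
          mul_nonneg (abs_nonneg _) (by linarith [hbet n])
        have h6 : 0 ≤ |cn (Ds q B a) U n| * (2 * B.card / q.totient) * F n :=
          mul_nonneg (mul_nonneg (abs_nonneg _) hφ) (hF0 n hn1)
        have h7 : |cn (Ds q B a) U n| * (1 + 2 * B.card / q.totient) * F n
            = |cn (Ds q B a) U n| * F n
              + |cn (Ds q B a) U n| * (2 * B.card / q.totient) * F n := by ring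
        rw [h7]
        linarith
      · have hne : n ≠ q := by
          rintro rfl
          rw [Nat.coprime_self] at hcop
          omega
        have hRa : n ∈ Ra q B a := by
          unfold Ra
          rw [Finset.mem_filter, Finset.mem_Icc]
          exact ⟨⟨hn2, by omega⟩, hcop, hB'⟩
        have h3 := cn_zero q B a U hU n hRa
        rw [h3]
        simp
    · rw [if_neg (fun h => hB' h.2)]
      have hkn : 12 * Real.log (n * X) ≤ k := by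
        refine le_trans ?_ hkX
        have h3 : (n : ℝ) ≤ q * N := by exact_mod_cast hnN
        have h4 : (0 : ℝ) < n := by exact_mod_cast hn1
        have h5 : Real.log (n * X) ≤ Real.log (q * N * X) :=
          Real.log_le_log (by positivity) (mul_le_mul_of_nonneg_right h3 (by linarith))
        linarith
      have h3 := Z0_Dn_off q s hs S (by linarith) hsS B hB X Y τ θ hX1 hXY hτ hθ hθ1 h k n hk hn1
        hkn _ hB' (F n) (hF0 n hn1) (fun b hb => Dn_le_mx q s hs B k n hn1 b hb)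
      calc |cn (Ds q B a) U n| * ‖Dn q s k (a * (un q n)⁻¹) n‖
          ≤ |cn (Ds q B a) U n| * (2 * bet S τ θ Y k n + 2 * B.card / q.totient * F n) :=
            mul_le_mul_of_nonneg_left h3 (abs_nonneg _)
        _ = |cn (Ds q B a) U n| * (0 + 2 * B.card / q.totient) * F n
            + |cn (Ds q B a) U n| * (2 * bet S τ θ Y k n) := by ring
  refine h2.trans ?_
  rw [Finset.sum_add_distrib]
  refine add_le_add le_rfl ?_
  refine Finset.sum_le_sum_of_subset_of_nonneg (Finset.filter_subset _ _) fun n _ _ => ?_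
  exact mul_nonneg (abs_nonneg _) (by linarith [hbet n])

/-- A class outside `B`. -/
lemma Z0_off_step (q : ℕ) [NeZero q] (s : ℂ) (hs : s.re = 2) (S : ℝ) (hS1 : 1 ≤ S) (hS : ‖s‖ ≤ S)
    (B : Finset (ZMod q)ˣ) (hB : 2 * (B.card : ℝ) ≤ q.totient) (X Y τ θ : ℝ) (hX : 1 ≤ X)
    (hXY : X ≤ Y) (hτ : 0 ≤ τ) (hθ : 1 / 2 ≤ θ) (hθ1 : θ ≤ 1)
    (h : ∀ k n : ℕ, 1 ≤ k → 1 ≤ n → 12 * Real.log (n * X) ≤ k → ∀ c ∉ B, ∀ c' ∉ B,
      ‖Dn q s k c n - Dn q s k c' n‖ ≤ bet S τ θ Y k n)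
    (k : ℕ) (hk : 1 ≤ k) (hkX : 12 * Real.log X ≤ k) (c : (ZMod q)ˣ) (hc : c ∉ B) :
    ‖Dk q s k c‖ ≤ 2 * bet S τ θ Y k 1
      + 2 * B.card / q.totient * mx B (fun b => ‖Dk q s k b‖) := by
  have h1 : 12 * Real.log (((1 : ℕ) : ℝ) * X) ≤ k := by
    rw [Nat.cast_one, one_mul]
    exact hkX
  have h2 := Z0_Dn_off q s hs S hS1 hS B hB X Y τ θ hX hXY hτ hθ hθ1 h k 1 hk le_rfl h1 c hc
    (mx B (fun b => ‖Dk q s k b‖)) (mx_nonneg B _ fun b => norm_nonneg _)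
    (fun b hb => by
      rw [Dn_one]
      exact le_mx B (fun b => ‖Dk q s k b‖) b hb)
  rw [Dn_one] at h2
  exact h2

/-- Z0. The core theorem `MY.core_unif` with the hypothesis in abstract form (mechanical copy of
`MY.C1`, `MY.C3`; the hypothesis enters only through `MY.Dn_off`). -/
theorem core_abs (θ ε₀ : ℝ) (hθ : 1 / 2 ≤ θ) (hθ1 : θ < 1) (h0 : 0 < ε₀) (h1 : ε₀ ≤ 1 / 10) :
    ∃ C₂ Cw : ℝ, 1 ≤ C₂ ∧ 1 ≤ Cw ∧
    ∀ (A K₃ : ℝ), 1 ≤ A → 1 ≤ K₃ → ∃ K : ℕ, 1 ≤ K ∧ ∃ (η : ℝ) (q₀ : ℕ), 0 < η ∧ η ≤ 1 / 2 ∧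
    ∀ (S : ℝ), 3 ≤ S →
    ∀ (q : ℕ) [NeZero q], q₀ ≤ q → S + 2 ≤ (q : ℝ) ^ η →
    ∀ X : ℝ, (q : ℝ) ≤ X → X ≤ (q : ℝ) ^ A →
    ∀ B : Finset (ZMod q)ˣ, B.Nonempty → (B.card : ℝ) ≤ (q : ℝ) ^ (θ / (2 - θ) - ε₀) →
    ∀ τ : ℝ, 0 ≤ τ → ∀ s : ℂ, s.re = 2 → ‖s‖ ≤ S →
    (∀ k n : ℕ, 1 ≤ k → 1 ≤ n → 12 * Real.log (n * X) ≤ k → ∀ c ∉ B, ∀ c' ∉ B,
      ‖Dn q s k c n - Dn q s k c' n‖ ≤ bet S τ θ (X ^ K) k n) →
    ∀ k : ℕ, C₂ * Real.log X ≤ k → (k : ℝ) ≤ K₃ * Real.log X →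
    (∀ a ∈ B, ‖Dk q s k a‖ * (2 - θ) ^ k
      ≤ 6 * (1 + S) * Cw * τ * ((B.card : ℝ) * q) ^ (1 - θ) * (q : ℝ) ^ (ε₀ / 4)
        + (q : ℝ) ^ (-2 : ℝ)) ∧
    (∀ c ∉ B, ‖Dk q s k c‖ * (2 - θ) ^ k ≤ 6 * (1 + S) * Cw * τ + (q : ℝ) ^ (-2 : ℝ)) := by
  obtain ⟨Cw, qw, hCw, hw⟩ := weights θ ε₀ hθ hθ1 h0 h1
  obtain ⟨CD, hCD, hD⟩ := Dk_bound
  have he0 : 0 < ε₀ / 40 := by positivity
  refine ⟨61 + 80 / (ε₀ / 40), Cw, ?_, hCw, ?_⟩
  · have : 0 < 80 / (ε₀ / 40) := by positivity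
    linarith
  intro A K₃ hA hK3
  obtain ⟨κ, hκ'⟩ := exists_nat_ge ((12 + A * K₃) / (ε₀ / 40))
  have hκ : 12 + A * K₃ ≤ ε₀ / 40 * κ := by
    rw [div_le_iff₀ he0] at hκ'
    linarith
  obtain ⟨K, hK⟩ := exists_nat_ge (4 * K₃ + 20)
  have hK1 : 1 ≤ K := by
    have : (1 : ℝ) ≤ K := by linarith
    exact_mod_cast this
  obtain ⟨Cs', hCs', hstep'⟩ := Z0_step κ
  obtain ⟨q₁, hq₁⟩ := exists_nat_ge ((2 * (3 * CD + 480 * Cw + 4 * Cs') + 960) ^ 2)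
  have hκ1 : (0 : ℝ) < 2 * (κ + 1) := by positivity
  refine ⟨K, hK1, 1 / (2 * (κ + 1)), max qw (max 9 q₁), by positivity, ?_, ?_⟩
  · rw [div_le_div_iff₀ hκ1 (by norm_num)]
    have : (0 : ℝ) ≤ κ := Nat.cast_nonneg _
    linarith
  intro S hS q _ hq hSq X hqX hXA B hBne hBcard τ hτ s hs hsS h k hkC hkK
  obtain ⟨Cs, hCsdef⟩ : ∃ Cs : ℝ, Cs = Cs' * (S + 2) ^ (κ + 1) := ⟨_, rfl⟩
  have hCs : 0 ≤ Cs := by rw [hCsdef]; exact mul_nonneg hCs' (pow_nonneg (by linarith) _)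
  have hstep := hstep' S hS
  rw [← hCsdef] at hstep
  set M : ℝ := 240 * (1 + S) * Cw + 2 * Cs with hM
  have hM0 : 0 ≤ M := by positivity
  have hqw : qw ≤ q := le_trans (le_max_left _ _) hq
  have hq9 : 9 ≤ q := le_trans (le_trans (le_max_left _ _) (le_max_right _ _)) hq
  have hqq₁ : q₁ ≤ q := le_trans (le_trans (le_max_right _ _) (le_max_right _ _)) hq
  have hQ9 : (9 : ℝ) ≤ q := by exact_mod_cast hq9
  have hQ1 : (1 : ℝ) ≤ q := by linarith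
  have hQ0 : (0 : ℝ) < q := by linarith
  -- the size of `S`
  obtain ⟨r, hr⟩ : ∃ r : ℝ, r = (q : ℝ) ^ (1 / 2 : ℝ) := ⟨_, rfl⟩
  have hr0 : 0 ≤ r := by rw [hr]; positivity
  have hr2 : r * r = q := by
    rw [hr, ← Real.rpow_add hQ0]
    norm_num
  have hrbig : 2 * (3 * CD + 480 * Cw + 4 * Cs') + 960 ≤ r := by
    have h2 : (2 * (3 * CD + 480 * Cw + 4 * Cs') + 960) ^ 2 ≤ r ^ 2 := by
      rw [pow_two r, hr2]
      have h3 : (q₁ : ℝ) ≤ q := by exact_mod_cast hqq₁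
      linarith
    have hCw0 : 0 ≤ Cw := by linarith
    exact (pow_le_pow_iff_left₀ (by positivity) hr0 two_ne_zero).mp h2
  have hSκ : (S + 2) ^ (κ + 1) ≤ r := by
    have h2 : (S + 2) ^ (κ + 1) ≤ ((q : ℝ) ^ (1 / (2 * ((κ : ℝ) + 1)))) ^ (κ + 1) :=
      pow_le_pow_left₀ (by linarith) hSq _
    refine h2.trans (le_of_eq ?_)
    rw [hr, ← Real.rpow_natCast, ← Real.rpow_mul hQ0.le]
    congr 1
    push_cast
    field_simp
  have hSr : 1 + S ≤ r := by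
    have h2 : S + 2 ≤ (S + 2) ^ (κ + 1) := le_self_pow₀ (by linarith) (by omega)
    linarith
  have hMq : 2 * (3 * CD + 2 * M) ≤ q := by
    have h2 : Cs ≤ Cs' * r := by rw [hCsdef]; exact mul_le_mul_of_nonneg_left hSκ hCs'
    have hCw0 : 0 ≤ Cw := by linarith
    have h3 : (1 + S) * Cw ≤ r * Cw := mul_le_mul_of_nonneg_right hSr hCw0
    have hr1 : 1 ≤ r := by linarith
    have h4 : 3 * CD ≤ 3 * CD * r := le_mul_of_one_le_right (by positivity) hr1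
    calc 2 * (3 * CD + 2 * M) = 2 * (3 * CD + 480 * ((1 + S) * Cw) + 4 * Cs) := by rw [hM]; ring
      _ ≤ 2 * (3 * CD * r + 480 * (r * Cw) + 4 * (Cs' * r)) := by linarith
      _ = (2 * (3 * CD + 480 * Cw + 4 * Cs')) * r := by ring
      _ ≤ r * r := mul_le_mul_of_nonneg_right (by linarith) hr0
      _ = q := hr2
  have hSq960 : 960 * (1 + S) ≤ q := by
    calc 960 * (1 + S) ≤ 960 * r := by linarith
      _ ≤ r * r := mul_le_mul_of_nonneg_right (by linarith) hr0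
      _ = q := hr2
  have hX1 : 1 ≤ X := by linarith
  have hX0 : 0 < X := by linarith
  have hl1 : 1 ≤ Real.log X := by
    have h2 : Real.exp 1 ≤ X := by
      have := Real.exp_one_lt_d9
      linarith
    have h3 := Real.log_le_log (Real.exp_pos 1) h2
    rwa [Real.log_exp] at h3
  have hρ0 : 0 < 2 - θ := by linarith
  have hk60 : 60 * Real.log X ≤ k := by
    have h3 : 0 ≤ (1 + 80 / (ε₀ / 40)) * Real.log X := by positivity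
    have h4 : (61 + 80 / (ε₀ / 40)) * Real.log X
        = 60 * Real.log X + (1 + 80 / (ε₀ / 40)) * Real.log X := by ring
    linarith
  have hXK : X ≤ X ^ K := by
    calc X = X ^ 1 := (pow_one X).symm
      _ ≤ X ^ K := pow_le_pow_right₀ hX1 hK1
  have hw' := fun a => hw q hqw B hBne hBcard a
  obtain ⟨a₀, ha₀⟩ := hBne
  have hBφ : 4 * (B.card : ℝ) ≤ q.totient := (hw' a₀).1
  have hBφ2 : 2 * (B.card : ℝ) ≤ q.totient := by
    have : (0 : ℝ) ≤ B.card := Nat.cast_nonneg _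
    linarith
  have hk₁ : 60 * Real.log X ≤ ((⌈60 * Real.log X⌉₊ : ℕ) : ℝ) := Nat.le_ceil _
  have hk₁' : ((⌈60 * Real.log X⌉₊ : ℕ) : ℝ) ≤ 60 * Real.log X + 1 :=
    (Nat.ceil_lt_add_one (by positivity)).le
  have hk10 : 1 ≤ ⌈60 * Real.log X⌉₊ := Nat.one_le_ceil_iff.mpr (by linarith)
  have hk3 : ((⌊K₃ * Real.log X⌋₊ : ℕ) : ℝ) ≤ K₃ * Real.log X := Nat.floor_le (by positivity)
  have hkk3 : k ≤ ⌊K₃ * Real.log X⌋₊ := Nat.le_floor hkK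
  have hQe : (q : ℝ) ≤ (q : ℝ) ^ (1 + ε₀ / 40) := by
    calc (q : ℝ) = (q : ℝ) ^ (1 : ℝ) := (Real.rpow_one _).symm
      _ ≤ (q : ℝ) ^ (1 + ε₀ / 40) := Real.rpow_le_rpow_of_exponent_le hQ1 (by linarith)
  set W : ℝ := Cw * (((B.card : ℝ) * q) ^ (1 - θ) * (q : ℝ) ^ (ε₀ / 4)) with hWdef
  have hW0 : 0 ≤ W := by positivity
  have hmain := C3_step Cw CD Cs S A K₃ ε₀ κ K ⌈60 * Real.log X⌉₊ ⌊K₃ * Real.log X⌋₊ q hq9 h0 h1
    hCw hCD hCs hS hK3 hκ hK X hqX hXA B ⟨a₀, ha₀⟩ θ hθ hθ1 hBcard τ hτ s hk₁ hk3 hk10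
    (fun a => (hw' a).2.2.1) (fun a => (hw' a).2.2.2.1)
    (fun a => by
      have h2 := (hw' a).2.2.2.2
      rw [mul_assoc] at h2
      exact h2)
    (fun k hk1 hk a ha => hstep q (by omega) s hs hsS B hBφ2 X (X ^ K) τ θ hqX hXK hτ hθ hθ1.le h
      ((q : ℝ) ^ (1 + ε₀ / 40)) hQe ⌈2 * (q : ℝ) ^ (1 + ε₀ / 40)⌉₊ (Nat.le_ceil _) k hk1 hk a ha)
    (fun k a => hD q s hs k a) k hkk3
  have hinit := C3_init CD (ε₀ / 40) X q hCD he0 (by linarith) hQ1 hqX hl1 k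
    ⌈60 * Real.log X⌉₊ hk₁' hkC
  have hq62 : (q : ℝ) ^ (-6 : ℝ) = (q : ℝ) ^ (-2 : ℝ) * (q : ℝ) ^ (-4 : ℝ) := by
    rw [← Real.rpow_add hQ0]
    norm_num
  have hq4 : (q : ℝ) ^ (-4 : ℝ) ≤ (q : ℝ)⁻¹ := by
    rw [← Real.rpow_neg_one]
    exact Real.rpow_le_rpow_of_exponent_le hQ1 (by norm_num)
  have hq2n : 0 ≤ (q : ℝ) ^ (-2 : ℝ) := Real.rpow_nonneg hQ0.le _
  have hjunk : (3 * CD + 2 * M) * (q : ℝ) ^ (-6 : ℝ) ≤ (q : ℝ) ^ (-2 : ℝ) / 2 := by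
    have h2 : (3 * CD + 2 * M) * (q : ℝ)⁻¹ ≤ 1 / 2 := by
      rw [← div_eq_mul_inv, div_le_iff₀ hQ0]
      linarith
    have h3 : (3 * CD + 2 * M) * (q : ℝ) ^ (-4 : ℝ) ≤ 1 / 2 :=
      (mul_le_mul_of_nonneg_left hq4 (by positivity)).trans h2
    calc (3 * CD + 2 * M) * (q : ℝ) ^ (-6 : ℝ)
        = (3 * CD + 2 * M) * (q : ℝ) ^ (-4 : ℝ) * (q : ℝ) ^ (-2 : ℝ) := by rw [hq62]; ring
      _ ≤ 1 / 2 * (q : ℝ) ^ (-2 : ℝ) := mul_le_mul_of_nonneg_right h3 hq2n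
      _ = (q : ℝ) ^ (-2 : ℝ) / 2 := by ring
  have hu : (2 - θ) ^ k * mx B (fun b => ‖Dk q s k b‖)
      ≤ 4 * (1 + S) * τ * W + (q : ℝ) ^ (-2 : ℝ) / 2 := by
    have h2 := hmain.trans (add_le_add hinit le_rfl)
    rw [← hM] at h2
    calc (2 - θ) ^ k * mx B (fun b => ‖Dk q s k b‖)
        ≤ 3 * CD * (q : ℝ) ^ (-6 : ℝ) + 2 * (2 * (1 + S) * τ * W + M * (q : ℝ) ^ (-6 : ℝ)) := h2
      _ = 4 * (1 + S) * τ * W + (3 * CD + 2 * M) * (q : ℝ) ^ (-6 : ℝ) := by ring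
      _ ≤ 4 * (1 + S) * τ * W + (q : ℝ) ^ (-2 : ℝ) / 2 := by linarith
  refine ⟨fun a ha => ?_, fun c hc => ?_⟩
  · have h2 := le_mx B (fun b => ‖Dk q s k b‖) a ha
    have h3 := mul_le_mul_of_nonneg_left h2 (pow_nonneg hρ0.le k)
    have h4 : 4 * (1 + S) * τ * W ≤ 6 * (1 + S) * τ * W := by
      have : 0 ≤ (1 + S) * τ * W := by positivity
      linarith
    have h5 : 6 * (1 + S) * Cw * τ * ((B.card : ℝ) * q) ^ (1 - θ) * (q : ℝ) ^ (ε₀ / 4)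
        = 6 * (1 + S) * τ * W := by
      rw [hWdef]
      ring
    rw [h5, mul_comm]
    have h6 : (2 - θ) ^ k * ‖Dk q s k a‖ ≤ (2 - θ) ^ k * mx B (fun b => ‖Dk q s k b‖) := h3
    linarith
  · have h2 := Z0_off_step q s hs S (by linarith) hsS B hBφ2 X (X ^ K) τ θ hX1 hXK hτ hθ hθ1.le h k
      (by
        have h3 : (1 : ℝ) ≤ k := by linarith
        exact_mod_cast h3)
      (by linarith) c hc
    have h3 := mul_le_mul_of_nonneg_left h2 (pow_nonneg hρ0.le k)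
    have h4 := C3_bet S τ θ (X ^ K) (by linarith) hτ hθ hθ1 (by positivity) k 1 le_rfl
    rw [Nat.cast_one, Real.one_rpow, mul_one] at h4
    have h6 := C3_err3 q X K₃ K k hQ1 hqX hk60 hkK hK
    have h7 : 120 * (1 + S) * (2 * (q : ℝ) ^ (-10 : ℝ)) ≤ (q : ℝ) ^ (-2 : ℝ) / 4 := by
      have h8 : (q : ℝ) ^ (-10 : ℝ) ≤ (q : ℝ) ^ (-2 : ℝ) * (q : ℝ)⁻¹ := by
        calc (q : ℝ) ^ (-10 : ℝ) ≤ (q : ℝ) ^ (-3 : ℝ) :=
              Real.rpow_le_rpow_of_exponent_le hQ1 (by norm_num)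
          _ = (q : ℝ) ^ (-2 : ℝ) * (q : ℝ) ^ (-1 : ℝ) := by
              rw [← Real.rpow_add hQ0]
              norm_num
          _ = (q : ℝ) ^ (-2 : ℝ) * (q : ℝ)⁻¹ := by rw [Real.rpow_neg_one]
      have h9 : 240 * (1 + S) * (q : ℝ)⁻¹ ≤ 1 / 4 := by
        rw [← div_eq_mul_inv, div_le_iff₀ hQ0]
        linarith
      calc 120 * (1 + S) * (2 * (q : ℝ) ^ (-10 : ℝ)) = 240 * (1 + S) * (q : ℝ) ^ (-10 : ℝ) := by
            ring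
        _ ≤ 240 * (1 + S) * ((q : ℝ) ^ (-2 : ℝ) * (q : ℝ)⁻¹) :=
            mul_le_mul_of_nonneg_left h8 (by linarith)
        _ = 240 * (1 + S) * (q : ℝ)⁻¹ * (q : ℝ) ^ (-2 : ℝ) := by ring
        _ ≤ 1 / 4 * (q : ℝ) ^ (-2 : ℝ) := mul_le_mul_of_nonneg_right h9 hq2n
        _ = (q : ℝ) ^ (-2 : ℝ) / 4 := by ring
    have h8 : 2 * ((1 + S) * (τ + 60 * ((3 / 8 : ℝ) ^ k + 3 ^ k * (X ^ K) ^ (-(1 / 2) : ℝ))))
        ≤ 2 * (1 + S) * τ + (q : ℝ) ^ (-2 : ℝ) / 4 := by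
      have h9 : 120 * (1 + S) * ((3 / 8 : ℝ) ^ k + 3 ^ k * (X ^ K) ^ (-(1 / 2) : ℝ))
          ≤ 120 * (1 + S) * (2 * (q : ℝ) ^ (-10 : ℝ)) :=
        mul_le_mul_of_nonneg_left h6 (by linarith)
      calc 2 * ((1 + S) * (τ + 60 * ((3 / 8 : ℝ) ^ k + 3 ^ k * (X ^ K) ^ (-(1 / 2) : ℝ))))
          = 2 * (1 + S) * τ
            + 120 * (1 + S) * ((3 / 8 : ℝ) ^ k + 3 ^ k * (X ^ K) ^ (-(1 / 2) : ℝ)) := by ring
        _ ≤ 2 * (1 + S) * τ + (q : ℝ) ^ (-2 : ℝ) / 4 := by linarith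
    have hφ0 : (0 : ℝ) < q.totient := by
      have : 0 < q.totient := Nat.totient_pos.mpr (by omega)
      exact_mod_cast this
    have hB1 : (1 : ℝ) ≤ B.card := by
      have : 0 < B.card := Finset.card_pos.mpr ⟨a₀, ha₀⟩
      exact_mod_cast this
    have h10 : 2 * (B.card : ℝ) / q.totient * W ≤ 1 := by
      have h11 := (hw' a₀).2.1
      rw [mul_assoc Cw] at h11
      exact h11
    have h12 : 2 * (B.card : ℝ) / q.totient ≤ 1 / 2 := by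
      rw [div_le_iff₀ hφ0]
      linarith
    have h13 : 2 * (B.card : ℝ) / q.totient *
        ((2 - θ) ^ k * mx B (fun b => ‖Dk q s k b‖))
        ≤ 4 * (1 + S) * τ + (q : ℝ) ^ (-2 : ℝ) / 4 := by
      have h14 : 2 * (B.card : ℝ) / q.totient * ((2 - θ) ^ k * mx B (fun b => ‖Dk q s k b‖))
          ≤ 2 * (B.card : ℝ) / q.totient *
            (4 * (1 + S) * τ * W + (q : ℝ) ^ (-2 : ℝ) / 2) :=
        mul_le_mul_of_nonneg_left hu (by positivity)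
      have h15 : 4 * (1 + S) * τ * (2 * (B.card : ℝ) / q.totient * W)
          ≤ 4 * (1 + S) * τ * 1 := mul_le_mul_of_nonneg_left h10 (by positivity)
      have h16 : 2 * (B.card : ℝ) / q.totient * ((q : ℝ) ^ (-2 : ℝ) / 2)
          ≤ 1 / 2 * ((q : ℝ) ^ (-2 : ℝ) / 2) := mul_le_mul_of_nonneg_right h12 (by positivity)
      calc 2 * (B.card : ℝ) / q.totient * ((2 - θ) ^ k * mx B (fun b => ‖Dk q s k b‖))
          ≤ 2 * (B.card : ℝ) / q.totient *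
            (4 * (1 + S) * τ * W + (q : ℝ) ^ (-2 : ℝ) / 2) := h14
        _ = 4 * (1 + S) * τ * (2 * (B.card : ℝ) / q.totient * W)
            + 2 * (B.card : ℝ) / q.totient * ((q : ℝ) ^ (-2 : ℝ) / 2) := by ring
        _ ≤ 4 * (1 + S) * τ + (q : ℝ) ^ (-2 : ℝ) / 4 := by linarith
    have h17 : 6 * (1 + S) * τ ≤ 6 * (1 + S) * Cw * τ := by
      have h18 : 6 * (1 + S) * τ * 1 ≤ 6 * (1 + S) * τ * Cw :=
        mul_le_mul_of_nonneg_left hCw (by positivity)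
      calc 6 * (1 + S) * τ = 6 * (1 + S) * τ * 1 := by ring
        _ ≤ 6 * (1 + S) * τ * Cw := h18
        _ = 6 * (1 + S) * Cw * τ := by ring
    rw [mul_comm]
    calc (2 - θ) ^ k * ‖Dk q s k c‖
        ≤ (2 - θ) ^ k * (2 * bet S τ θ (X ^ K) k 1
          + 2 * B.card / q.totient * mx B (fun b => ‖Dk q s k b‖)) := h3
      _ = 2 * ((2 - θ) ^ k * bet S τ θ (X ^ K) k 1)
          + 2 * (B.card : ℝ) / q.totient *
            ((2 - θ) ^ k * mx B (fun b => ‖Dk q s k b‖)) := by ring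
      _ ≤ 2 * ((1 + S) * (τ + 60 * ((3 / 8 : ℝ) ^ k + 3 ^ k * (X ^ K) ^ (-(1 / 2) : ℝ))))
          + (4 * (1 + S) * τ + (q : ℝ) ^ (-2 : ℝ) / 4) :=
          add_le_add (mul_le_mul_of_nonneg_left h4 (by norm_num)) h13
      _ ≤ 6 * (1 + S) * Cw * τ + (q : ℝ) ^ (-2 : ℝ) := by linarith

end Pool.Agent.MZ
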