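import Mathlib
import Pool.Agent.Lib.MP_9cfc0a_nt.Mg.G023
import Pool.Agent.Lib.MP_9cfc0a_nt.Mg.G034
import Pool.Agent.Lib.MP_9cfc0a_nt.Mg.G032
import Pool.Agent.Lib.MP_9cfc0a_nt.Mg.G035
import Pool.Agent.Lib.MP_9cfc0a_nt.Mg.G036
import Pool.Agent.Lib.MP_9cfc0a_nt.Mg.G037
import Pool.Agent.Lib.MP_9cfc0a_nt.Mg.G025
import Pool.Agent.Lib.MP_9cfc0a_nt.Mg.G024
import Pool.Agent.Lib.MP_9cfc0a_nt.Mg.G027
import Pool.Agent.Lib.MP_9cfc0a_nt.MZ.Q3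
import Pool.Agent.Lib.MP_9cfc0a_nt.MY.C2
import Pool.Agent.Lib.MP_9cfc0a_nt.MY.C3

set_option autoImplicit false

namespace Pool.Agent.MZ

open Complex Finset MY

/-- The sum `XS` over the rows, with abstract bounds. -/
lemma E1_aux (ε₀ : ℝ) (h0 : 0 < ε₀) (h1 : ε₀ ≤ 1 / 10) (δ : ℝ) (hδ : 0 < δ) (hδ1 : δ ≤ 1 / 10)
    (q : ℕ) [NeZero q] (hq : 2 ≤ q) (X : ℝ) (hX : 1 ≤ X) (B : Finset (ZMod q)ˣ) (Y : ℝ)
    (hY : X ≤ Y) (w2 : ℝ) (hw2 : 0 ≤ w2)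
    (hint : ∫ x in Set.Ioc X Y, VB q B x / x ^ 2 ≤ w2) (s : ℂ) (hs : s.re = 2) (hs3 : ‖s‖ ≤ 3)
    (Λ : ℝ) (hΛ : 0 ≤ Λ)
    (hLW : ∀ χ : DirichletCharacter ℂ q, χ ≠ 1 → ∀ i : ℕ,
      ‖∑ m ∈ Icc 1 (NN q ε₀), (((MC.C2.vv ((m : ℝ) / UU q ε₀) : ℝ) : ℂ) * gi s i m) * χ m‖
        ≤ Λ * ((3 / 2 - 2 * δ)⁻¹) ^ i)
    (ΛN : ℝ) (hΛN : 0 ≤ ΛN)
    (hmaj : ∀ h : (ZMod q)ˣ → ℝ, (∀ c, 0 ≤ h c) →
      ∑ a ∈ B, (∑ d ∈ (Icc 1 ⌊ZZ q ε₀⌋₊).filter (fun d => Nat.Coprime d q),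
        (d : ℝ) ^ (-(1 / 2) : ℝ) * h (a * (un q d)⁻¹)) ^ 2 ≤ ΛN * ∑ c, (h c) ^ 2) (k : ℕ) :
    ∑ a ∈ B, ‖XS q ε₀ B X Y s k a‖ ^ 2
      ≤ ((k : ℝ) + 1) ^ 4 * ΛN * (Λ * (6 * Real.sqrt w2)) ^ 2 *
        (((3 / 2 - 2 * δ)⁻¹) ^ k) ^ 2 := by
  have hqr : (1 : ℝ) ≤ q := by
    have : (2 : ℝ) ≤ q := by exact_mod_cast hq
    linarith
  have hZ1 : 1 ≤ ZZ q ε₀ := Real.one_le_rpow hqr (by linarith)
  have hU1 : 1 ≤ UU q ε₀ := Real.one_le_rpow hqr (by linarith)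
  have hN : 2 * UU q ε₀ ≤ (NN q ε₀ : ℝ) := Nat.le_ceil _
  have hr0 : 0 < 3 / 2 - 2 * δ := by linarith
  have hsq : Real.sqrt w2 ^ 2 = w2 := Real.sq_sqrt hw2
  -- the convolution bound
  have hconv := conv_bound q (Icc 1 (NN q ε₀))
    (fun j m => ((MC.C2.vv ((m : ℝ) / UU q ε₀) : ℝ) : ℂ) * gi s j m)
    (fun j c => Fj q B X Y s j c) Λ (6 * Real.sqrt w2) (3 / 2 - 2 * δ) (3 / 2) hΛ (by positivity)
    hr0 (by linarith) (fun j => Fj_sum q B X Y hX s hs j) (fun j => by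
      have h2 := Fj_norm q B X Y hX hY s hs 3 le_rfl hs3 j
      refine h2.trans ?_
      have h3 : (2 * 3 * (2 / 3 : ℝ) ^ j) ^ 2 * ∫ x in Set.Ioc X Y, VB q B x / x ^ 2
          ≤ (2 * 3 * (2 / 3 : ℝ) ^ j) ^ 2 * w2 :=
        mul_le_mul_of_nonneg_left hint (by positivity)
      refine h3.trans (le_of_eq ?_)
      have h4 : ((3 / 2 : ℝ))⁻¹ = 2 / 3 := by norm_num
      rw [h4]
      calc (2 * 3 * (2 / 3 : ℝ) ^ j) ^ 2 * w2 = (2 * 3 * (2 / 3 : ℝ) ^ j) ^ 2 * Real.sqrt w2 ^ 2 := by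
            rw [hsq]
        _ = (6 * Real.sqrt w2 * (2 / 3 : ℝ) ^ j) ^ 2 := by ring) (fun i χ hχ => hLW χ hχ i)
  have hXB := X_bound q s hs B (ZZ q ε₀) hZ1 (fun a => Dz q B (ZZ q ε₀) a)
    (fun a _ d hd => ⟨((Dz_mem q hq B (ZZ q ε₀) hZ1 a).2 d hd).1,
      ((Dz_mem q hq B (ZZ q ε₀) hZ1 a).2 d hd).2.2⟩)
    (fun l c => ∑ j ∈ range (l + 1), ∑ m ∈ (Icc 1 (NN q ε₀)).filter (fun m => Nat.Coprime m q),
        (((MC.C2.vv ((m : ℝ) / UU q ε₀) : ℝ) : ℂ) * gi s j m) *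
          Fj q B X Y s (l - j) (c * (un q m)⁻¹))
    (Λ * (6 * Real.sqrt w2)) (3 / 2 - 2 * δ) ΛN (by positivity) hr0 (by linarith) hΛN
    (fun l => hconv l) hmaj k
  refine le_trans (le_of_eq ?_) hXB
  refine Finset.sum_congr rfl fun a _ => ?_
  congr 2
  have hfac := X_factor q s (Dz q B (ZZ q ε₀) a)
    (fun d hd => ⟨((Dz_mem q hq B (ZZ q ε₀) hZ1 a).2 d hd).1,
      ((Dz_mem q hq B (ZZ q ε₀) hZ1 a).2 d hd).2.1⟩) (UU q ε₀) hU1 (NN q ε₀) hN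
    (fun j c => Fj q B X Y s j c) k a
  unfold XS cz Fn
  exact hfac

/-- The size of the main term. -/
lemma E1_size (C ε₀ : ℝ) (hC : 1 ≤ C) (h0 : 0 < ε₀) (h1 : ε₀ ≤ 1 / 10) (q : ℕ) (hq : 1 ≤ q)
    (b : ℝ) (hb0 : 0 ≤ b) (hb : b ≤ (q : ℝ) ^ (1 / 3 - ε₀)) :
    b * (C * (ZZ q ε₀) ^ (1 / 2 + 3 * (ε₀ / 8))) ^ 2 / q.totient ≤ C ^ 2 * (1 + 2 / ε₀) := by
  have hqr : (1 : ℝ) ≤ q := by exact_mod_cast hq
  have hq0 : (0 : ℝ) < q := by linarith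
  have hphi := C2_phi ε₀ h0 q hq
  have hφ0 : (0 : ℝ) < (q.totient : ℝ) := by exact_mod_cast Nat.totient_pos.2 (by omega)
  have hZ : (ZZ q ε₀) ^ (1 / 2 + 3 * (ε₀ / 8)) = (q : ℝ) ^ ((2 / 3 - ε₀) * (1 / 2 + 3 * (ε₀ / 8))) := by
    unfold ZZ
    rw [← Real.rpow_mul hq0.le]
  rw [hZ, div_le_iff₀ hφ0]
  have h2 : ((q : ℝ) ^ ((2 / 3 - ε₀) * (1 / 2 + 3 * (ε₀ / 8)))) ^ 2
      = (q : ℝ) ^ ((2 / 3 - ε₀) * (1 + 3 * (ε₀ / 4))) := by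
    rw [← Real.rpow_natCast, ← Real.rpow_mul hq0.le]
    congr 1
    push_cast
    ring
  have h3 : b * (q : ℝ) ^ ((2 / 3 - ε₀) * (1 + 3 * (ε₀ / 4))) ≤ (q : ℝ) ^ (1 - ε₀) := by
    calc b * (q : ℝ) ^ ((2 / 3 - ε₀) * (1 + 3 * (ε₀ / 4)))
        ≤ (q : ℝ) ^ (1 / 3 - ε₀) * (q : ℝ) ^ ((2 / 3 - ε₀) * (1 + 3 * (ε₀ / 4))) :=
          mul_le_mul_of_nonneg_right hb (Real.rpow_nonneg hq0.le _)
      _ = (q : ℝ) ^ (1 / 3 - ε₀ + (2 / 3 - ε₀) * (1 + 3 * (ε₀ / 4))) := by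
          rw [← Real.rpow_add hq0]
      _ ≤ (q : ℝ) ^ (1 - ε₀) := by
          refine Real.rpow_le_rpow_of_exponent_le hqr ?_
          have h5 : 1 / 3 - ε₀ + (2 / 3 - ε₀) * (1 + 3 * (ε₀ / 4))
              = 1 - ε₀ - (ε₀ / 2 + 3 / 4 * ε₀ ^ 2) := by ring
          have h6 : 0 ≤ ε₀ / 2 + 3 / 4 * ε₀ ^ 2 := by positivity
          linarith
  have h4 : (q : ℝ) ^ (1 - ε₀) ≤ (1 + 2 / ε₀) * q.totient := by
    have h5 : (q : ℝ) ^ (1 - ε₀) * (q : ℝ) ^ ε₀ = q := by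
      rw [← Real.rpow_add hq0]
      have : 1 - ε₀ + ε₀ = 1 := by ring
      rw [this, Real.rpow_one]
    have h6 : 0 < (q : ℝ) ^ ε₀ := Real.rpow_pos_of_pos hq0 _
    refine le_of_mul_le_mul_right ?_ h6
    rw [h5]
    linarith
  calc b * (C * (q : ℝ) ^ ((2 / 3 - ε₀) * (1 / 2 + 3 * (ε₀ / 8)))) ^ 2
      = C ^ 2 * (b * ((q : ℝ) ^ ((2 / 3 - ε₀) * (1 / 2 + 3 * (ε₀ / 8)))) ^ 2) := by ring
    _ = C ^ 2 * (b * (q : ℝ) ^ ((2 / 3 - ε₀) * (1 + 3 * (ε₀ / 4)))) := by rw [h2]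
    _ ≤ C ^ 2 * ((1 + 2 / ε₀) * q.totient) :=
        mul_le_mul_of_nonneg_left (h3.trans h4) (by positivity)
    _ = C ^ 2 * (1 + 2 / ε₀) * q.totient := by ring

/-- The number of Poisson terms. -/
lemma E1_JJ (ε₀ L₀ x : ℝ) (h0 : 0 < ε₀) (h1 : ε₀ ≤ 1 / 10) (q : ℕ) (hq : 1 ≤ q)
    (hL : 1 + Real.log q ≤ L₀ * x) :
    (JJ (ε₀ / 8) (ZZ q ε₀) : ℝ) + 1 ≤ 2 / (ε₀ / 8) * (L₀ * x) := by
  have hqr : (1 : ℝ) ≤ q := by exact_mod_cast hq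
  have hq0 : (0 : ℝ) < q := by linarith
  have hlog : 0 ≤ Real.log q := Real.log_nonneg hqr
  set e : ℝ := ε₀ / 8 with he
  have he0 : 0 < e := by positivity
  have he1 : e ≤ 1 / 80 := by linarith
  have hi : 1 ≤ 1 / e := by rw [le_div_iff₀ he0]; linarith
  have hlZ : Real.log (ZZ q ε₀) ≤ Real.log q := by
    unfold ZZ
    rw [Real.log_rpow hq0]
    have : (2 / 3 - ε₀) * Real.log q ≤ 1 * Real.log q :=
      mul_le_mul_of_nonneg_right (by linarith) hlog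
    linarith
  have hlZ0 : 0 ≤ Real.log (ZZ q ε₀) := by
    unfold ZZ
    rw [Real.log_rpow hq0]
    exact mul_nonneg (by linarith) hlog
  have h2 : (JJ e (ZZ q ε₀) : ℝ) ≤ (1 + e) * (1 / e) * Real.log (ZZ q ε₀) + 1 := by
    unfold JJ
    exact (Nat.ceil_lt_add_one (by positivity)).le
  have h3 : (1 + e) * (1 / e) * Real.log (ZZ q ε₀) ≤ 2 / e * Real.log q := by
    have h4 : (1 + e) * (1 / e) ≤ 2 / e := by
      rw [mul_one_div]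
      exact div_le_div_of_nonneg_right (by linarith) he0.le
    exact mul_le_mul h4 hlZ hlZ0 (by positivity)
  have h5 : 2 / e * (1 + Real.log q) ≤ 2 / e * (L₀ * x) :=
    mul_le_mul_of_nonneg_left hL (by positivity)
  have h6 : 2 / e * (1 + Real.log q) = 2 * (1 / e) + 2 / e * Real.log q := by ring
  linarith

/-- E1. The main sums over the rows of `B`. -/
theorem XB (ε₀ A K₃ η : ℝ) (h0 : 0 < ε₀) (h1 : ε₀ ≤ 1 / 10) (hA : 1 ≤ A) (hK : 1 ≤ K₃)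
    (hη : 0 < η) : ∃ δ₀ T₀ : ℝ, 0 < δ₀ ∧ δ₀ ≤ 1 / 10 ∧ 8 ≤ T₀ ∧ ∀ δ : ℝ, 0 < δ → δ ≤ δ₀ →
    ∃ q₀ : ℕ, ∀ (q : ℕ) [NeZero q], q₀ ≤ q → ZFB q δ T₀ →
    ∀ X : ℝ, (q : ℝ) ≤ X → X ≤ (q : ℝ) ^ A → ∀ B : Finset (ZMod q)ˣ, B.Nonempty →
    (B.card : ℝ) ≤ (q : ℝ) ^ (1 / 3 - ε₀) → ∀ Y : ℝ, X ≤ Y → ∀ w2 : ℝ, 0 ≤ w2 →
    ∫ x in Set.Ioc X Y, VB q B x / x ^ 2 ≤ w2 → ∀ s : ℂ, s.re = 2 → ‖s‖ ≤ 3 →
    ∀ k : ℕ, (k : ℝ) ≤ K₃ * Real.log X →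
    ∑ a ∈ B, (‖XS q ε₀ B X Y s k a‖ * (3 / 2 : ℝ) ^ k) ^ 2 ≤ (q : ℝ) ^ η * w2 := by
  have he0 : 0 < ε₀ / 8 := by positivity
  have he1 : ε₀ / 8 ≤ 1 / 10 := by linarith
  obtain ⟨C, Z₁, hC, hZ₁, hmaj⟩ := maj (ε₀ / 8) he0 he1
  have hKA : 1 ≤ K₃ * A := one_le_mul_of_one_le_of_one_le hK hA
  have hKA0 : 0 < K₃ * A := by linarith
  refine ⟨min (1 / 10) (min (η / (80 * (K₃ * A))) (η / 80)), 8 + 8 / ε₀, ?_, min_le_left _ _, ?_, ?_⟩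
  · refine lt_min (by norm_num) (lt_min (by positivity) (by positivity))
  · have : 0 < 8 / ε₀ := by positivity
    linarith
  intro δ hδ hδm
  have hδ1 : δ ≤ 1 / 10 := hδm.trans (min_le_left _ _)
  have hδ2 : δ ≤ η / (80 * (K₃ * A)) := hδm.trans ((min_le_right _ _).trans (min_le_left _ _))
  have hδ3 : δ ≤ η / 80 := hδm.trans ((min_le_right _ _).trans (min_le_right _ _))
  have hδKA : δ * (K₃ * A) ≤ η / 80 := by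
    rw [le_div_iff₀ (by positivity)] at hδ2
    linarith
  have hη20 : 0 < η / 20 := by positivity
  obtain ⟨q₁, hq₁⟩ := lindelof δ (η / 20) (6 + 8 / ε₀) hδ hδ1 hη20 (by positivity)
  obtain ⟨q₂, hq₂⟩ := LW_bound δ (η / 20) (ε₀ / 40) hδ hδ1 hη20 (by positivity)
  -- constants
  set L₀ : ℝ := 1 + 20 / η with hL₀
  have hL₀1 : 1 ≤ L₀ := by
    have : 0 < 20 / η := by positivity
    linarith
  set K₅ : ℝ := 25 / (ε₀ / 8) ^ 2 * L₀ ^ 2 with hK₅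
  have hK₅0 : 0 < K₅ := by positivity
  set K₄ : ℝ := (K₃ * A * L₀) ^ 4 * (2 * (C ^ 2 * (1 + 2 / ε₀) + K₅)) * 144 with hK₄
  have hK₄0 : 0 < K₄ := by positivity
  refine ⟨max 2 (max q₁ (max q₂ (max ⌈Z₁ ^ (2 : ℝ)⌉₊ ⌈K₄ ^ (20 / η)⌉₊))), ?_⟩
  intro q _ hq hZFB X hqX hXA B hBne hB Y hY w2 hw2 hint s hs hs3 k hk
  have hqa : 2 ≤ q := (le_max_left _ _).trans hq
  have hq' := (le_max_right _ _).trans hq
  have hqb : q₁ ≤ q := (le_max_left _ _).trans hq'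
  have hq'' := (le_max_right _ _).trans hq'
  have hqc : q₂ ≤ q := (le_max_left _ _).trans hq''
  have hq3 := (le_max_right _ _).trans hq''
  have hqd : ⌈Z₁ ^ (2 : ℝ)⌉₊ ≤ q := (le_max_left _ _).trans hq3
  have hqe : ⌈K₄ ^ (20 / η)⌉₊ ≤ q := (le_max_right _ _).trans hq3
  have hQ2 : (2 : ℝ) ≤ q := by exact_mod_cast hqa
  set Q : ℝ := (q : ℝ) with hQ
  have hQ1 : 1 ≤ Q := by linarith
  have hQ0 : 0 < Q := by linarith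
  have hX1 : 1 ≤ X := by linarith
  have hX0 : 0 < X := by linarith
  set x : ℝ := Q ^ (η / 20) with hx
  have hx1 : 1 ≤ x := Real.one_le_rpow hQ1 hη20.le
  have hx0 : 0 < x := by linarith
  have hpow : ∀ m : ℕ, Q ^ ((m : ℝ) * (η / 20)) = x ^ m := by
    intro m
    rw [hx, ← Real.rpow_natCast, ← Real.rpow_mul hQ0.le]
    congr 1
    ring
  have hK₄x : K₄ ≤ x := by
    have h2 : K₄ ^ (20 / η) ≤ Q := by
      have h3 : K₄ ^ (20 / η) ≤ (⌈K₄ ^ (20 / η)⌉₊ : ℝ) := Nat.le_ceil _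
      have h4 : ((⌈K₄ ^ (20 / η)⌉₊ : ℕ) : ℝ) ≤ Q := by
        rw [hQ]
        exact_mod_cast hqe
      linarith
    have h5 := Real.rpow_le_rpow (by positivity) h2 hη20.le
    rw [← Real.rpow_mul hK₄0.le] at h5
    have h6 : 20 / η * (η / 20) = 1 := by field_simp
    rw [h6, Real.rpow_one] at h5
    exact h5
  have hlogQ : 0 ≤ Real.log Q := Real.log_nonneg hQ1
  have hLx : 1 + Real.log Q ≤ L₀ * x := by
    have h2 : Real.log Q ≤ Q ^ (η / 20) / (η / 20) := Real.log_le_rpow_div hQ0.le hη20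
    have h3 : Q ^ (η / 20) / (η / 20) = 20 / η * x := by
      rw [hx]
      field_simp
    rw [h3] at h2
    have h4 : L₀ * x = x + 20 / η * x := by rw [hL₀]; ring
    linarith
  have hZZ : Z₁ ≤ ZZ q ε₀ := by
    have h2 : Z₁ ^ (2 : ℝ) ≤ Q := by
      have h3 : Z₁ ^ (2 : ℝ) ≤ (⌈Z₁ ^ (2 : ℝ)⌉₊ : ℝ) := Nat.le_ceil _
      have h4 : ((⌈Z₁ ^ (2 : ℝ)⌉₊ : ℕ) : ℝ) ≤ Q := by
        rw [hQ]
        exact_mod_cast hqd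
      linarith
    have h5 := Real.rpow_le_rpow (by positivity) h2 (by norm_num : (0 : ℝ) ≤ 1 / 2)
    rw [← Real.rpow_mul (by linarith)] at h5
    have h6 : (2 : ℝ) * (1 / 2) = 1 := by norm_num
    rw [h6, Real.rpow_one] at h5
    refine h5.trans ?_
    unfold ZZ
    exact Real.rpow_le_rpow_of_exponent_le hQ1 (by linarith)
  have hZ1 : 1 ≤ ZZ q ε₀ := hZ₁.trans hZZ
  -- the Lindelöf bound
  have hZFB' : ZFB q δ (6 + 8 / ε₀ + 2) := by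
    have : 6 + 8 / ε₀ + 2 = 8 + 8 / ε₀ := by ring
    rw [this]
    exact hZFB
  have hL := hq₁ q hqb hZFB'
  have hL6 : ∀ χ : DirichletCharacter ℂ q, χ ≠ 1 → ∀ z : ℂ, 1 / 2 + 2 * δ ≤ z.re → |z.im| ≤ 6 →
      ‖χ.LFunction z‖ ≤ (q : ℝ) ^ (η / 20) := by
    intro χ hχ z hz hz6
    refine hL χ hχ z hz (hz6.trans ?_)
    have : 0 < 8 / ε₀ := by positivity
    linarith
  have hLW := hq₂ q hqc hL6 s hs hs3 (NN q ε₀) (Nat.le_ceil _)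
  have hball : ∀ χ : DirichletCharacter ℂ q, χ ≠ 1 →
      ∀ z ∈ Metric.closedBall ((1 / 2 + 2 * δ + 1 / (ε₀ / 8) : ℝ) : ℂ) (1 / (ε₀ / 8)),
        ‖χ.LFunction z‖ ≤ x := by
    intro χ hχ z hz
    rw [Metric.mem_closedBall, Complex.dist_eq] at hz
    have hre := (Complex.abs_re_le_norm _).trans hz
    have him := (Complex.abs_im_le_norm _).trans hz
    rw [Complex.sub_re, Complex.ofReal_re, abs_le] at hre
    rw [Complex.sub_im, Complex.ofReal_im, sub_zero] at him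
    refine hL χ hχ z (by linarith [hre.1]) (him.trans ?_)
    have : 1 / (ε₀ / 8) = 8 / ε₀ := by field_simp
    rw [this]
    linarith
  set ΛN : ℝ := (ZZ q ε₀) ^ (4 * δ) * (2 * (B.card * (C * (ZZ q ε₀) ^ (1 / 2 + 3 * (ε₀ / 8))) ^ 2
    / q.totient + (2 * (JJ (ε₀ / 8) (ZZ q ε₀) + 1) * x + 1) ^ 2)) with hΛN
  have hφ0 : (0 : ℝ) < (q.totient : ℝ) := by exact_mod_cast Nat.totient_pos.2 (by omega)
  have hZp : 0 ≤ (ZZ q ε₀) ^ (1 / 2 + 3 * (ε₀ / 8)) := Real.rpow_nonneg (by linarith) _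
  have hZd0 : 0 ≤ (ZZ q ε₀) ^ (4 * δ) := Real.rpow_nonneg (by linarith) _
  have hΛN0 : 0 ≤ ΛN := by positivity
  have hmaj' := hmaj q (ZZ q ε₀) δ x hZZ hδ.le hx0.le hball B
  have hmain := E1_aux ε₀ h0 h1 δ hδ hδ1 q hqa X hX1 B Y hY w2 hw2 hint s hs hs3 (x + 1)
    (by positivity) hLW ΛN hΛN0 hmaj' k
  -- sizes
  have hsize := E1_size C ε₀ hC h0 h1 q (by omega) B.card (Nat.cast_nonneg _) hB
  have hJJ := E1_JJ ε₀ L₀ x h0 h1 q (by omega) hLx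
  have hZd : (ZZ q ε₀) ^ (4 * δ) ≤ x := by
    have h2 : ZZ q ε₀ ≤ Q := by
      unfold ZZ
      calc Q ^ (2 / 3 - ε₀) ≤ Q ^ (1 : ℝ) := Real.rpow_le_rpow_of_exponent_le hQ1 (by linarith)
        _ = Q := Real.rpow_one Q
    calc (ZZ q ε₀) ^ (4 * δ) ≤ Q ^ (4 * δ) := Real.rpow_le_rpow (by linarith) h2 (by positivity)
      _ ≤ x := Real.rpow_le_rpow_of_exponent_le hQ1 (by linarith)
  have hlogX : Real.log X ≤ A * Real.log Q := by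
    rw [← Real.log_rpow hQ0]
    exact Real.log_le_log hX0 hXA
  have hk1 : (k : ℝ) + 1 ≤ K₃ * A * L₀ * x := by
    have h2 : (k : ℝ) ≤ K₃ * (A * Real.log Q) := hk.trans (mul_le_mul_of_nonneg_left hlogX (by linarith))
    have h3 : K₃ * A * (1 + Real.log Q) ≤ K₃ * A * (L₀ * x) := mul_le_mul_of_nonneg_left hLx hKA0.le
    have h4 : K₃ * A * (1 + Real.log Q) = K₃ * A + K₃ * (A * Real.log Q) := by ring
    have h5 : K₃ * A * (L₀ * x) = K₃ * A * L₀ * x := by ring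
    linarith
  have hrr : ((3 / 2 - 2 * δ)⁻¹ * (3 / 2)) ^ k ≤ Q ^ (η / 40) := by
    have hr0 : 0 < 3 / 2 - 2 * δ := by linarith
    have h2 : (3 / 2 - 2 * δ)⁻¹ * (3 / 2) ≤ Real.exp (2 * δ) := by
      have h3 := Real.add_one_le_exp (2 * δ)
      refine le_trans ?_ h3
      rw [inv_mul_le_iff₀ hr0]
      have h4 : (3 / 2 - 2 * δ) * (2 * δ + 1) = 3 / 2 + δ * (1 - 4 * δ) := by ring
      rw [h4]
      have h5 : 0 ≤ δ * (1 - 4 * δ) := mul_nonneg hδ.le (by linarith)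
      linarith
    have h3 := C3_up ((3 / 2 - 2 * δ)⁻¹ * (3 / 2)) (2 * δ) K₃ X (by positivity) h2 (by positivity)
      hX1 k hk
    refine h3.trans ?_
    calc X ^ (2 * δ * K₃) ≤ (Q ^ A) ^ (2 * δ * K₃) :=
          Real.rpow_le_rpow hX0.le hXA (by positivity)
      _ = Q ^ (A * (2 * δ * K₃)) := by rw [← Real.rpow_mul hQ0.le]
      _ ≤ Q ^ (η / 40) := by
          refine Real.rpow_le_rpow_of_exponent_le hQ1 ?_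
          have : A * (2 * δ * K₃) = 2 * (δ * (K₃ * A)) := by ring
          linarith
  have hrr2 : (((3 / 2 - 2 * δ)⁻¹) ^ k) ^ 2 * ((3 / 2 : ℝ) ^ k) ^ 2 ≤ x := by
    have h2 : (((3 / 2 - 2 * δ)⁻¹) ^ k) ^ 2 * ((3 / 2 : ℝ) ^ k) ^ 2
        = (((3 / 2 - 2 * δ)⁻¹ * (3 / 2)) ^ k) ^ 2 := by
      rw [mul_pow, mul_pow]
    rw [h2]
    have hr0 : 0 < 3 / 2 - 2 * δ := by linarith
    have h3 : (((3 / 2 - 2 * δ)⁻¹ * (3 / 2)) ^ k) ^ 2 ≤ (Q ^ (η / 40)) ^ 2 :=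
      pow_le_pow_left₀ (by positivity) hrr 2
    refine h3.trans (le_of_eq ?_)
    rw [hx, ← Real.rpow_natCast, ← Real.rpow_mul hQ0.le]
    congr 1
    push_cast
    ring
  have hJ2 : (2 * ((JJ (ε₀ / 8) (ZZ q ε₀) : ℝ) + 1) * x + 1) ^ 2 ≤ K₅ * x ^ 4 := by
    have he : 0 < ε₀ / 8 := he0
    have hi : 1 ≤ 1 / (ε₀ / 8) := by rw [le_div_iff₀ he]; linarith
    have h2 : 2 * ((JJ (ε₀ / 8) (ZZ q ε₀) : ℝ) + 1) * x + 1 ≤ 5 / (ε₀ / 8) * L₀ * x ^ 2 := by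
      have h3 : 2 * ((JJ (ε₀ / 8) (ZZ q ε₀) : ℝ) + 1) * x
          ≤ 2 * (2 / (ε₀ / 8) * (L₀ * x)) * x :=
        mul_le_mul_of_nonneg_right (mul_le_mul_of_nonneg_left hJJ (by norm_num)) hx0.le
      have h4 : 1 ≤ 1 / (ε₀ / 8) * L₀ * x ^ 2 :=
        one_le_mul_of_one_le_of_one_le (one_le_mul_of_one_le_of_one_le hi hL₀1) (one_le_pow₀ hx1)
      have h5 : 5 / (ε₀ / 8) * L₀ * x ^ 2 = 2 * (2 / (ε₀ / 8) * (L₀ * x)) * x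
          + 1 / (ε₀ / 8) * L₀ * x ^ 2 := by ring
      linarith
    have h6 : 0 ≤ 2 * ((JJ (ε₀ / 8) (ZZ q ε₀) : ℝ) + 1) * x + 1 := by positivity
    calc (2 * ((JJ (ε₀ / 8) (ZZ q ε₀) : ℝ) + 1) * x + 1) ^ 2
        ≤ (5 / (ε₀ / 8) * L₀ * x ^ 2) ^ 2 := pow_le_pow_left₀ h6 h2 2
      _ = K₅ * x ^ 4 := by rw [hK₅]; ring
  have hΛNle : ΛN ≤ 2 * (C ^ 2 * (1 + 2 / ε₀) + K₅) * x ^ 5 := by
    have h2 : (B.card * (C * (ZZ q ε₀) ^ (1 / 2 + 3 * (ε₀ / 8))) ^ 2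
        / q.totient + (2 * (JJ (ε₀ / 8) (ZZ q ε₀) + 1) * x + 1) ^ 2)
        ≤ (C ^ 2 * (1 + 2 / ε₀) + K₅) * x ^ 4 := by
      have h3 : C ^ 2 * (1 + 2 / ε₀) ≤ C ^ 2 * (1 + 2 / ε₀) * x ^ 4 :=
        le_mul_of_one_le_right (by positivity) (one_le_pow₀ hx1)
      have h4 : (C ^ 2 * (1 + 2 / ε₀) + K₅) * x ^ 4 = C ^ 2 * (1 + 2 / ε₀) * x ^ 4 + K₅ * x ^ 4 := by
        ring
      linarith
    rw [hΛN]
    calc (ZZ q ε₀) ^ (4 * δ) * (2 * (B.card * (C * (ZZ q ε₀) ^ (1 / 2 + 3 * (ε₀ / 8))) ^ 2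
          / q.totient + (2 * (JJ (ε₀ / 8) (ZZ q ε₀) + 1) * x + 1) ^ 2))
        ≤ x * (2 * ((C ^ 2 * (1 + 2 / ε₀) + K₅) * x ^ 4)) := by
          refine mul_le_mul hZd (mul_le_mul_of_nonneg_left h2 (by norm_num)) (by positivity) hx0.le
      _ = 2 * (C ^ 2 * (1 + 2 / ε₀) + K₅) * x ^ 5 := by ring
  have hx2 : (x + 1) ^ 2 ≤ 4 * x ^ 2 := by
    have h2 : (x + 1) ^ 2 ≤ (2 * x) ^ 2 := pow_le_pow_left₀ (by positivity) (by linarith) 2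
    have h3 : (2 * x) ^ 2 = 4 * x ^ 2 := by ring
    linarith
  have hk4 : ((k : ℝ) + 1) ^ 4 ≤ (K₃ * A * L₀) ^ 4 * x ^ 4 := by
    have h2 : ((k : ℝ) + 1) ^ 4 ≤ (K₃ * A * L₀ * x) ^ 4 := pow_le_pow_left₀ (by positivity) hk1 4
    rw [mul_pow] at h2
    exact h2
  have hsq : Real.sqrt w2 ^ 2 = w2 := Real.sq_sqrt hw2
  calc ∑ a ∈ B, (‖XS q ε₀ B X Y s k a‖ * (3 / 2 : ℝ) ^ k) ^ 2
      = (∑ a ∈ B, ‖XS q ε₀ B X Y s k a‖ ^ 2) * ((3 / 2 : ℝ) ^ k) ^ 2 := by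
        rw [Finset.sum_mul]
        refine Finset.sum_congr rfl fun a _ => ?_
        rw [mul_pow]
    _ ≤ (((k : ℝ) + 1) ^ 4 * ΛN * ((x + 1) * (6 * Real.sqrt w2)) ^ 2 *
        (((3 / 2 - 2 * δ)⁻¹) ^ k) ^ 2) * ((3 / 2 : ℝ) ^ k) ^ 2 :=
        mul_le_mul_of_nonneg_right hmain (by positivity)
    _ = ((k : ℝ) + 1) ^ 4 * ΛN * (x + 1) ^ 2 *
        ((((3 / 2 - 2 * δ)⁻¹) ^ k) ^ 2 * ((3 / 2 : ℝ) ^ k) ^ 2) * (36 * Real.sqrt w2 ^ 2) := by ring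
    _ ≤ ((K₃ * A * L₀) ^ 4 * x ^ 4) * (2 * (C ^ 2 * (1 + 2 / ε₀) + K₅) * x ^ 5) * (4 * x ^ 2) *
        x * (36 * Real.sqrt w2 ^ 2) := by
        refine mul_le_mul_of_nonneg_right ?_ (by positivity)
        refine mul_le_mul ?_ hrr2 (by positivity) (by positivity)
        refine mul_le_mul ?_ hx2 (by positivity) (by positivity)
        exact mul_le_mul hk4 hΛNle hΛN0 (by positivity)
    _ = K₄ * x ^ 12 * w2 := by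
        rw [hsq, hK₄]
        ring
    _ ≤ Q ^ η * w2 := by
        refine mul_le_mul_of_nonneg_right ?_ hw2
        have h2 : Q ^ η = x ^ 20 := by
          rw [← hpow 20]
          congr 1
          push_cast
          ring
        rw [h2]
        calc K₄ * x ^ 12 ≤ x * x ^ 12 := mul_le_mul_of_nonneg_right hK₄x (by positivity)
          _ = x ^ 13 := by ring
          _ ≤ x ^ 20 := pow_le_pow_right₀ hx1 (by norm_num)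

end Pool.Agent.MZ
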