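import Mathlib
import Pool.Agent.Lib.MP_9cfc0a_nt.Mg.G023
import Pool.Agent.Lib.MP_9cfc0a_nt.MZ.Z0
import Pool.Agent.Lib.MP_9cfc0a_nt.Mg.G044
import Pool.Agent.Lib.MP_9cfc0a_nt.Mg.G037
import Pool.Agent.Lib.MP_9cfc0a_nt.Mg.G033
import Pool.Agent.Lib.MP_9cfc0a_nt.Mg.G029
import Pool.Agent.Lib.MP_9cfc0a_nt.MY.A2

set_option autoImplicit false

namespace Pool.Agent.MZ

open Complex Finset MY

/-- The Taylor coefficients of all non principal characters, from the mean square outside `B`. -/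
lemma Z2_char (β : ℝ) (hβ : β < 1 / 3) : ∃ C₂ : ℝ, 1 ≤ C₂ ∧
    ∀ (A K₃ : ℝ), 1 ≤ A → 1 ≤ K₃ → ∃ (K : ℕ) (η : ℝ), 1 ≤ K ∧ 0 < η ∧
    ∀ (S : ℝ), 3 ≤ S → ∃ q₀ : ℕ, ∀ (q : ℕ) [NeZero q], q₀ ≤ q →
    ∀ X : ℝ, (q : ℝ) ≤ X → X ≤ (q : ℝ) ^ A →
    ∀ B : Finset (ZMod q)ˣ, B.Nonempty → (B.card : ℝ) ≤ (q : ℝ) ^ β →
    ∀ Y : ℝ, X ^ K ≤ Y → ∫ x in Set.Ioc X Y, VB q B x / x ^ 2 ≤ 2 →
    ∀ χ : DirichletCharacter ℂ q, χ ≠ 1 → ∀ s : ℂ, s.re = 2 → ‖s‖ ≤ S → ∀ k : ℕ,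
      C₂ * Real.log X ≤ k → (k : ℝ) ≤ K₃ * Real.log X →
      ‖TC (logDeriv (MC.FF q χ)) s k‖ * (3 / 2) ^ k ≤ (q : ℝ) ^ (4 : ℝ) := by
  classical
  obtain ⟨ε₀, h0, h1, hβε⟩ : ∃ ε₀ : ℝ, 0 < ε₀ ∧ ε₀ ≤ 1 / 10 ∧ β ≤ 1 / 3 - ε₀ := by
    refine ⟨min ((1 / 3 - β) / 2) (1 / 10), lt_min (by linarith) (by norm_num),
      min_le_right _ _, ?_⟩
    have := min_le_left ((1 / 3 - β) / 2) (1 / 10 : ℝ)
    linarith
  obtain ⟨C₂, Cw, hC₂, hCw, hcore⟩ := core_abs (1 / 2) ε₀ le_rfl (by norm_num) h0 h1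
  refine ⟨C₂, hC₂, fun A K₃ hA hK₃ => ?_⟩
  obtain ⟨K, hK, η, q', hη0, hη2, hcoreS⟩ := hcore A K₃ hA hK₃
  refine ⟨K, η, hK, hη0, fun S hS => ?_⟩
  obtain ⟨n₁, hn₁⟩ := Filter.eventually_atTop.mp
    (((tendsto_rpow_atTop hη0).comp tendsto_natCast_atTop_atTop).eventually_ge_atTop (S + 2))
  obtain ⟨m, hm⟩ := exists_nat_ge (12 * (1 + S) * Cw + 2)
  refine ⟨max q' (max n₁ m), fun q _ hq X hX1 hX2 B hBne hB Y hY hint χ hχ s hs hsS k hk1 hk2 => ?_⟩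
  obtain ⟨C', hC'def⟩ : ∃ C' : ℝ, C' = 6 * (1 + S) * Cw := ⟨_, rfl⟩
  have hC' : 1 ≤ C' := by
    rw [hC'def]
    exact one_le_mul_of_one_le_of_one_le (by linarith) hCw
  have hqq' : q' ≤ q := (le_max_left _ _).trans hq
  have hqn₁ : n₁ ≤ q := (le_max_left _ _).trans ((le_max_right _ _).trans hq)
  have hqm : (m : ℝ) ≤ q := by exact_mod_cast (le_max_right _ _).trans ((le_max_right _ _).trans hq)
  have hQM : 2 * C' + 2 ≤ (q : ℝ) := by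
    rw [hC'def]
    refine le_trans (le_of_eq ?_) (hm.trans hqm)
    ring
  have hQ1 : (1 : ℝ) ≤ q := by linarith
  have hQ0 : (0 : ℝ) < q := by linarith
  have hSq : S + 2 ≤ (q : ℝ) ^ η := hn₁ q hqn₁
  have hB1 : (1 : ℝ) ≤ B.card := by exact_mod_cast hBne.card_pos
  have hBc : (B.card : ℝ) ≤ (q : ℝ) ^ ((1 / 2 : ℝ) / (2 - 1 / 2) - ε₀) := by
    refine hB.trans (Real.rpow_le_rpow_of_exponent_le hQ1 ?_)
    have : (1 / 2 : ℝ) / (2 - 1 / 2) = 1 / 3 := by norm_num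
    rw [this]
    exact hβε
  have hBc1 : (B.card : ℝ) ≤ (q : ℝ) ^ (1 - ε₀) :=
    hBc.trans (Real.rpow_le_rpow_of_exponent_le hQ1 (by norm_num))
  have hX1' : 1 ≤ X := hQ1.trans hX1
  have hXK : X ≤ X ^ K := le_self_pow₀ hX1' (by omega)
  have hdiff : ∀ k n : ℕ, 1 ≤ k → 1 ≤ n → 12 * Real.log (n * X) ≤ k → ∀ c ∉ B, ∀ c' ∉ B,
      ‖Dn q s k c n - Dn q s k c' n‖ ≤ bet S 2 (1 / 2) (X ^ K) k n := by
    intro k n hk hn hkn c hc c' hc'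
    refine Dn_diff_ms q s hs S (by linarith) hsS k n hk hn c c' X (X ^ K) 2 hX1' hXK
      (by norm_num) hkn ?_
    have h2 := diff_le_VB q B X (X ^ K) hX1' c c' hc hc'
    have h3 : ∫ x in Set.Ioc X (X ^ K), VB q B x / x ^ 2 ≤ ∫ x in Set.Ioc X Y, VB q B x / x ^ 2 := by
      refine MeasureTheory.setIntegral_mono_set (VB_int q B X Y hX1') ?_ ?_
      · exact Filter.Eventually.of_forall fun x => div_nonneg (VB_nonneg q B x) (sq_nonneg x)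
      · exact (Set.Ioc_subset_Ioc le_rfl hY).eventuallyLE
    linarith
  obtain ⟨hin, hout⟩ := hcoreS S hS q hqq' hSq X hX1 hX2 B hBne hBc 2 (by norm_num) s hs hsS hdiff
    k hk1 hk2
  have hρ : (2 : ℝ) - 1 / 2 = 3 / 2 := by norm_num
  have hρ' : (1 : ℝ) - 1 / 2 = 1 / 2 := by norm_num
  rw [hρ, ← hC'def] at hin hout
  have hq2 : (q : ℝ) ^ (-2 : ℝ) ≤ 1 := Real.rpow_le_one_of_one_le_of_nonpos hQ1 (by norm_num)
  have hφq : (q.totient : ℝ) ≤ q := by exact_mod_cast Nat.totient_le q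
  obtain ⟨hW1, hW2⟩ := G4_W (1 / 2) q B.card ε₀ le_rfl (by norm_num) hQ1 h0 h1 hB1 hBc1
  have hone : ∀ a : (ZMod q)ˣ, ‖Dk q s k a‖ * (3 / 2) ^ k ≤ (2 * C' + 1) * q := by
    intro a
    have h6 : C' * 2 * q + 1 ≤ (2 * C' + 1) * q := by linarith
    by_cases haB : a ∈ B
    · have h2 := hin a haB
      rw [mul_assoc] at h2
      calc ‖Dk q s k a‖ * (3 / 2) ^ k
          ≤ C' * 2 * (((B.card : ℝ) * q) ^ (1 - 1 / 2 : ℝ) * (q : ℝ) ^ (ε₀ / 4))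
            + (q : ℝ) ^ (-2 : ℝ) := h2
        _ ≤ C' * 2 * q + 1 := by gcongr
        _ ≤ _ := h6
    · have h2 := hout a haB
      calc ‖Dk q s k a‖ * (3 / 2) ^ k
          ≤ C' * 2 + (q : ℝ) ^ (-2 : ℝ) := h2
        _ ≤ C' * 2 * q + 1 := by
            refine add_le_add ?_ hq2
            nlinarith
        _ ≤ _ := h6
  have h2 := coeff_le q s k χ hχ
  rw [MC.FF_of_ne q χ hχ, G4_TC_neg]
  have hq4 : (q : ℝ) ^ (4 : ℝ) = (q : ℝ) ^ 4 := by exact_mod_cast Real.rpow_natCast (q : ℝ) 4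
  rw [hq4]
  have hq3' : (q : ℝ) ^ 3 ≤ (q : ℝ) ^ 4 := pow_le_pow_right₀ hQ1 (by norm_num)
  calc ‖TC (fun z => -logDeriv χ.LFunction z) s k‖ * (3 / 2) ^ k
      ≤ (∑ a : (ZMod q)ˣ, ‖Dk q s k a‖) * (3 / 2) ^ k := by gcongr
    _ = ∑ a : (ZMod q)ˣ, ‖Dk q s k a‖ * (3 / 2) ^ k := by rw [sum_mul]
    _ ≤ ∑ a : (ZMod q)ˣ, (2 * C' + 1) * (q : ℝ) := sum_le_sum fun a _ => hone a
    _ = q.totient * ((2 * C' + 1) * q) := by
        rw [sum_const, card_univ, ZMod.card_units_eq_totient, nsmul_eq_mul]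
    _ ≤ q * (q * q) := by
        gcongr
        linarith
    _ = (q : ℝ) ^ 3 := by ring
    _ ≤ (q : ℝ) ^ 4 := hq3'

/-- Z2. Bootstrap: small variance outside `B` implies a zero free region for the modulus `q`
(proof: as `MY.G4`, `MY.G5`, non principal characters only, `θ = 1/2`, `τ = 2`). -/
theorem zf_box (β A δ T : ℝ) (hβ : β < 1 / 3) (hA : 1 ≤ A) (hδ : 0 < δ) (hT : 0 ≤ T) :
    ∃ K₀ q₀ : ℕ, 1 ≤ K₀ ∧ ∀ (q : ℕ) [NeZero q], q₀ ≤ q → ∀ X : ℝ, (q : ℝ) ≤ X → X ≤ (q : ℝ) ^ A →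
    ∀ B : Finset (ZMod q)ˣ, B.Nonempty → (B.card : ℝ) ≤ (q : ℝ) ^ β →
    ∀ Y : ℝ, X ^ K₀ ≤ Y → ∫ x in Set.Ioc X Y, VB q B x / x ^ 2 ≤ 2 → ZFB q δ T := by
  classical
  rcases le_or_gt (1 / 2) δ with hbig | hsmall
  · refine ⟨1, 0, le_rfl, fun q _ _ X _ _ B _ _ Y _ _ χ hχ s hs1 _ => ?_⟩
    exact DirichletCharacter.LFunction_ne_zero_of_one_le_re χ (.inl hχ) (by linarith)
  obtain ⟨C₂, hC₂, hall⟩ := Z2_char β hβ
  obtain ⟨r, hr⟩ : ∃ r : ℝ, r = 3 / 2 - δ := ⟨_, rfl⟩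
  have hr1 : 1 < r := by linarith
  have hr0 : 0 < r := by linarith
  obtain ⟨ρ, hρ⟩ : ∃ ρ : ℝ, ρ = 3 / 2 := ⟨_, rfl⟩
  have hρr : r < ρ := by linarith
  have hρ0 : 0 < ρ := by linarith
  have hρ2 : ρ ≤ 3 / 2 := by linarith
  obtain ⟨η, hη⟩ : ∃ η : ℝ, η = Real.log (ρ / r) / 2 := ⟨_, rfl⟩
  have hη0 : 0 < η := by
    rw [hη]
    have := Real.log_pos (show 1 < ρ / r by rw [one_lt_div hr0]; exact hρr)
    positivity
  have hη2 : 2 * η = Real.log (ρ / r) := by rw [hη]; ring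
  obtain ⟨L, m₀, Z, hL, hZ, hwin⟩ := window_gen η hη0
  have hLR : (1 : ℝ) ≤ L := by exact_mod_cast hL
  obtain ⟨K', hK'⟩ : ∃ K' : ℝ, K' = max ((0 + 8) / η) (C₂ + 2 * Z + 1) := ⟨_, rfl⟩
  have hK'1 : (0 : ℝ) + 8 ≤ η * K' := by
    have h3 : ((0 : ℝ) + 8) / η ≤ K' := by rw [hK']; exact le_max_left _ _
    rw [div_le_iff₀ hη0] at h3; linarith
  have hK'2 : C₂ + 2 * Z + 1 ≤ K' := by rw [hK']; exact le_max_right _ _
  have hK'0 : 1 ≤ K' := by linarith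
  have hK₃ : (1 : ℝ) ≤ L * (K' + 1) := one_le_mul_of_one_le_of_one_le hLR (by linarith)
  obtain ⟨K, η₁, hK1, hη₁0, hallS⟩ := hall A (L * (K' + 1)) hA hK₃
  obtain ⟨q₀, hq₀'⟩ := hallS (T + 5) (by linarith)
  obtain ⟨Q, hQ⟩ := exists_nat_ge ((q₀ : ℝ) + Real.exp (m₀ + 1) + 1681 + (T + 7) ^ 2 + (16 + 4 * Z * 2) ^ 2)
  obtain ⟨X₁, hX₁⟩ := Filter.eventually_atTop.mp
    (Real.isLittleO_log_id_atTop.bound (show (0 : ℝ) < 1 / (4 * Z) by positivity))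
  obtain ⟨Q₂, hQ₂⟩ := exists_nat_ge |X₁|
  refine ⟨K, max Q Q₂, hK1, fun q _ hqQ X hX1 hX2 B hBne hB Y hY hint χ hχ ρ₀ h1 hT' hzero => ?_⟩
  have h2 : ρ₀.re < 1 := by
    by_contra hge
    push Not at hge
    exact DirichletCharacter.LFunction_ne_zero_of_one_le_re χ (.inl hχ) hge hzero
  have hqQR : (Q : ℝ) ≤ q := by exact_mod_cast (le_max_left _ _).trans hqQ
  have hqQ₂ : (Q₂ : ℝ) ≤ q := by exact_mod_cast (le_max_right _ _).trans hqQ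
  have hqX : X₁ ≤ (q : ℝ) := (le_abs_self X₁).trans (hQ₂.trans hqQ₂)
  have hq₀0 : (0 : ℝ) ≤ q₀ := Nat.cast_nonneg _
  have he1 := Real.exp_pos ((m₀ : ℝ) + 1)
  have hsq1 := sq_nonneg (T + 7)
  have hsq2 := sq_nonneg (16 + 4 * Z * 2)
  have hq1681 : (1681 : ℝ) ≤ q := by linarith
  have hq1 : (1 : ℝ) < q := by linarith
  have hq0 : (0 : ℝ) < q := by linarith
  have hqq₀ : q₀ ≤ q := by
    have : (q₀ : ℝ) ≤ q := by linarith
    exact_mod_cast this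
  obtain ⟨r₂, hr₂⟩ : ∃ r₂ : ℝ, r₂ = (q : ℝ) ^ (1 / 2 : ℝ) := ⟨_, rfl⟩
  have hr₂0 : 0 ≤ r₂ := by rw [hr₂]; positivity
  have hr₂2 : r₂ * r₂ = q := by
    rw [hr₂, ← Real.rpow_add hq0]
    norm_num
  have hTr : T + 7 ≤ r₂ := by
    have h3 : (T + 7) ^ 2 ≤ r₂ ^ 2 := by
      rw [pow_two r₂, hr₂2]
      linarith
    exact (pow_le_pow_iff_left₀ (by linarith) hr₂0 two_ne_zero).mp h3
  have hr₂41 : 41 ≤ r₂ := by
    have h3 : (41 : ℝ) ^ 2 ≤ r₂ ^ 2 := by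
      rw [pow_two r₂, hr₂2]
      linarith
    exact (pow_le_pow_iff_left₀ (by norm_num) hr₂0 two_ne_zero).mp h3
  obtain ⟨l, hl⟩ : ∃ l : ℝ, l = Real.log q := ⟨_, rfl⟩
  have hlm : (m₀ : ℝ) + 1 ≤ l := by
    rw [hl, Real.le_log_iff_exp_le hq0]
    linarith
  have hm₀0 : (0 : ℝ) ≤ m₀ := Nat.cast_nonneg _
  have hl1 : 1 ≤ l := by linarith
  have hlsmall : 4 * Z * l ≤ q := by
    have h3 := hX₁ q hqX
    rw [← hl, Real.norm_of_nonneg (by linarith), id, Real.norm_of_nonneg hq0.le] at h3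
    rw [one_div, inv_mul_eq_div, le_div_iff₀ (by positivity)] at h3
    linarith
  obtain ⟨lX, hlX⟩ : ∃ lX : ℝ, lX = Real.log X := ⟨_, rfl⟩
  have hllX : l ≤ lX := by
    rw [hl, hlX]
    exact Real.log_le_log hq0 hX1
  have hlX1 : 1 ≤ lX := by linarith
  obtain ⟨m, hm⟩ : ∃ m : ℕ, m = ⌈K' * lX⌉₊ := ⟨_, rfl⟩
  have hKl0 : 0 ≤ K' * lX := by positivity
  have hm1 : K' * lX ≤ m := by rw [hm]; exact Nat.le_ceil _
  have hm2 : (m : ℝ) ≤ K' * lX + 1 := by rw [hm]; exact (Nat.ceil_lt_add_one hKl0).le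
  have hlK : lX ≤ K' * lX := le_mul_of_one_le_left (by linarith) hK'0
  have hmm₀ : m₀ ≤ m := by
    have h3 : (m₀ : ℝ) ≤ m := by linarith
    exact_mod_cast h3
  have hKlow : (C₂ + 2 * Z + 1) * lX ≤ K' * lX := mul_le_mul_of_nonneg_right hK'2 (by linarith)
  have hKexp : (C₂ + 2 * Z + 1) * lX = C₂ * lX + 2 * (Z * lX) + lX := by ring
  have hZlX : 0 ≤ Z * lX := by positivity
  -- the range of `k`
  have hrange : ∀ k : ℕ, m ≤ k + 1 → k ≤ L * m →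
      C₂ * Real.log X ≤ k ∧ (k : ℝ) ≤ L * (K' + 1) * Real.log X := by
    intro k hk1 hk2
    have hk1R : (m : ℝ) ≤ k + 1 := by exact_mod_cast hk1
    have hk2R : (k : ℝ) ≤ L * m := by exact_mod_cast hk2
    rw [← hlX]
    constructor
    · linarith
    · have h3 : (L : ℝ) * m ≤ L * (K' * lX + 1) := by gcongr
      have h4 : K' * lX + 1 ≤ (K' + 1) * lX := by
        have : (K' + 1) * lX = K' * lX + lX := by ring
        linarith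
      calc (k : ℝ) ≤ L * m := hk2R
        _ ≤ L * (K' * lX + 1) := h3
        _ ≤ L * ((K' + 1) * lX) := by gcongr
        _ = _ := by ring
  -- the point
  obtain ⟨s, hs⟩ : ∃ s : ℂ, s = ⟨2, ρ₀.im⟩ := ⟨_, rfl⟩
  have hsre : s.re = 2 := by rw [hs]
  have hsim : s.im = ρ₀.im := by rw [hs]
  have hsn2 : ‖s‖ ≤ T + 2 := by
    calc ‖s‖ ≤ |s.re| + |s.im| := Complex.norm_le_abs_re_add_abs_im s
      _ ≤ T + 2 := by
          rw [hsre, hsim]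
          have : (|(2 : ℝ)|) = 2 := abs_of_pos (by norm_num)
          rw [this]
          linarith
  have hsn : ‖s‖ ≤ T + 5 := by linarith
  have hdist : ‖s - ρ₀‖ ≤ r := by
    have h3 : s - ρ₀ = ((2 - ρ₀.re : ℝ) : ℂ) := by
      apply Complex.ext
      · rw [Complex.sub_re, hsre, Complex.ofReal_re]
      · rw [Complex.sub_im, hsim, Complex.ofReal_im]; simp
    rw [h3, Complex.norm_real, Real.norm_of_nonneg (by linarith)]
    linarith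
  have hchar : ∀ k : ℕ, m ≤ k + 1 → k ≤ L * m →
      ‖TC (logDeriv (MC.FF q χ)) s k‖ ≤ (q : ℝ) ^ ((0 : ℝ) + 4) * (1 / ρ) ^ k := by
    intro k hk1 hk2
    obtain ⟨hka, hkb⟩ := hrange k hk1 hk2
    have h3 := hq₀' q hqq₀ X hX1 hX2 B hBne hB Y hY hint χ hχ s hsre hsn k hka hkb
    rw [← hρ] at h3
    rw [one_div, inv_pow, ← div_eq_mul_inv, le_div_iff₀ (by positivity), zero_add]
    exact h3
  have h15 : ∀ k : ℕ, 0 ≤ 15 * Real.log q * (10 / 19 : ℝ) ^ k := fun k => by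
    rw [← hl]; positivity
  have hexp2 : Real.exp (2 * l) = (q : ℝ) ^ 2 := by
    rw [hl, mul_comm, Real.exp_mul, Real.exp_log hq0]
    exact_mod_cast Real.rpow_natCast (q : ℝ) 2
  have hexpn : Real.exp (-(2 * l)) ≤ 1 / 3 := by
    rw [Real.exp_neg, hexp2, inv_le_comm₀ (by positivity) (by norm_num)]
    calc (1 / 3 : ℝ)⁻¹ = 3 := by norm_num
      _ ≤ 40 * 40 := by norm_num
      _ ≤ (q : ℝ) * q := by gcongr <;> linarith
      _ = (q : ℝ) ^ 2 := by ring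
  have hmZ : Z * (2 * l) + 1 ≤ m := by
    have h3 : Z * l ≤ Z * lX := by gcongr
    have h4 : 0 ≤ C₂ * lX := by positivity
    linarith
  have hb : ∀ z ∈ Metric.closedBall s (39 / 20), ‖MC.FF q χ z‖ ≤ Real.exp (2 * l) := by
    intro z hz
    rw [Metric.mem_closedBall, dist_eq_norm] at hz
    have hre := Complex.abs_re_le_norm (z - s)
    rw [Complex.sub_re, hsre, abs_le] at hre
    rw [MC.FF_of_ne q χ hχ, hexp2]
    have h3 := EM.L_growth q χ hχ z (by linarith)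
    have h4 : ‖z‖ ≤ r₂ := by
      have h5 : ‖z‖ ≤ ‖z - s‖ + ‖s‖ := by
        calc ‖z‖ = ‖(z - s) + s‖ := by ring_nf
          _ ≤ _ := norm_add_le _ _
      linarith
    calc ‖χ.LFunction z‖ ≤ 20 * (2 * q + 1) * ‖z‖ := h3
      _ ≤ 20 * (2 * q + 1) * r₂ := by gcongr
      _ ≤ 20 * (41 / 20 * q) * r₂ := by gcongr; linarith
      _ = 41 * q * r₂ := by ring
      _ ≤ r₂ * q * r₂ := by gcongr
      _ = q * (r₂ * r₂) := by ring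
      _ = (q : ℝ) ^ 2 := by rw [hr₂2]; ring
  have hc : Real.exp (-(2 * l)) ≤ ‖MC.FF q χ s‖ := by
    rw [MC.FF_of_ne q χ hχ]
    exact hexpn.trans (MC.LFunction_lower q χ s hsre)
  have hz1 : MC.FF q χ ρ₀ = 0 := by rw [MC.FF_of_ne q χ hχ, hzero]
  obtain ⟨k, hk1, hk2, hk3⟩ := hwin (MC.FF q χ) (MC.FF_differentiable q χ) s (2 * l)
    (by linarith) hb hc ρ₀ hz1 r hdist (by linarith) m hmm₀ hmZ
  have h5 := hchar k hk1 hk2
  have hm1' : K' * Real.log q ≤ m := by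
    rw [← hl]
    have : K' * l ≤ K' * lX := by gcongr
    linarith
  refine G5_contra (le_refl (0 : ℝ)) hq1 hr0 hρr hρ2 hη0 hη2 hK'1 hm1' hk1
    (by positivity) ?_ (h5.trans (by linarith [h15 k])) hk3
  have h6 : 16 + Z * (2 * l) ≤ q := by linarith
  exact h6

end Pool.Agent.MZ
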